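import Pool.Agent.H33.Newt2.LCR

/-!
# Project NEWTON2, module LAP: lattice coordinates of a pyramid of height one
-/

set_option autoImplicit false

namespace Pool.Newt2

open Pool.Newt

open Classical in
theorem sLap : SLap := by
  intro σ I J _ _ _ a τ i l hV
  obtain ⟨hi, h1, h0⟩ := hV
  have hperp : ∀ v ∈ LCR.sp a (τ.erase i), v l = 0 := by
    have : LCR.sp a (τ.erase i) ≤ LinearMap.ker (LinearMap.proj (R := ℚ) (φ := fun _ : σ => ℚ) l) := by
      refine Submodule.span_le.2 ?_
      rintro _ ⟨⟨i', hi'⟩, rfl⟩
      have h2 := h0 i' (Finset.mem_of_mem_erase hi') (Finset.ne_of_mem_erase hi')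
      simp [h2]
    intro v hv
    exact this hv
  set v0 : σ → ℚ := fun l => (a i l : ℚ) with hv0
  have hv0l : v0 l = 1 := by simp [hv0, h1]
  have hv0n : v0 ≠ 0 := by
    intro h
    rw [h] at hv0l
    simp at hv0l
  have hrk : rk a τ = rk a (τ.erase i) + 1 := by
    have hsup : LCR.sp a τ = LCR.sp a (τ.erase i) ⊔ Submodule.span ℚ {v0} := by
      refine le_antisymm (Submodule.span_le.2 ?_) (sup_le (Submodule.span_le.2 ?_)
        (Submodule.span_le.2 ?_))
      · rintro _ ⟨⟨i', hi'⟩, rfl⟩
        by_cases h : i' = i
        · subst h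
          exact Submodule.mem_sup_right (Submodule.subset_span rfl)
        · exact Submodule.mem_sup_left (LCR.mem_sp a _ i' (Finset.mem_erase.2 ⟨h, hi'⟩))
      · rintro _ ⟨⟨i', hi'⟩, rfl⟩
        exact LCR.mem_sp a _ i' (Finset.mem_of_mem_erase hi')
      · rintro _ rfl
        exact LCR.mem_sp a _ i hi
    have hinf : LCR.sp a (τ.erase i) ⊓ Submodule.span ℚ {v0} = ⊥ := by
      rw [Submodule.eq_bot_iff]
      rintro x ⟨hx1, hx2⟩
      obtain ⟨t, rfl⟩ := Submodule.mem_span_singleton.1 hx2
      have := hperp _ hx1
      rw [Pi.smul_apply, hv0l, smul_eq_mul, mul_one] at this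
      rw [this, zero_smul]
    have h3 := Submodule.finrank_sup_add_finrank_inf_eq (LCR.sp a (τ.erase i))
      (Submodule.span ℚ {v0})
    rw [hinf, finrank_bot, finrank_span_singleton hv0n, ← hsup] at h3
    rw [LCR.rk_eq, LCR.rk_eq]
    omega
  refine ⟨hrk, fun E m h => ?_⟩
  have hEl : ∀ y, E y l = 0 := by
    intro y
    have h3 : ((E y l : ℤ) : ℚ) = 0 := hperp _ (LCR.mem_span a _ E m h y)
    exact_mod_cast h3
  let E' : (Option J → ℤ) →+ (σ → ℤ) :=
    { toFun := fun y => (fun l => y none * (a i l : ℤ)) + E fun j => y (some j)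
      map_zero' := by
        have : (fun j : J => (0 : Option J → ℤ) (some j)) = 0 := rfl
        rw [this, map_zero]
        funext l
        simp
      map_add' := fun x y => by
        have : (fun j : J => (x + y) (some j)) = (fun j => x (some j)) + fun j => y (some j) := rfl
        rw [this, map_add]
        funext l
        simp only [Pi.add_apply]
        ring }
  have hE' : ∀ y, E' y = (fun l => y none * (a i l : ℤ)) + E fun j => y (some j) := fun y => rfl
  have hE'l : ∀ y, E' y l = y none := by
    intro y
    rw [hE', Pi.add_apply, hEl, h1]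
    simp
  refine ⟨E', ?_, ?_, ?_, ?_⟩
  · intro x y hxy
    have h4 : x none = y none := by rw [← hE'l x, ← hE'l y, hxy]
    have h5 : E (fun j => x (some j)) = E fun j => y (some j) := by
      have h6 := hxy
      rw [hE', hE', h4] at h6
      exact add_left_cancel h6
    have h7 := h.inj h5
    funext j
    rcases j with _ | j
    · exact h4
    · exact congrFun h7 j
  · intro n x hn hy
    obtain ⟨y, hy⟩ := hy
    have h4 : y none = n * x l := by
      rw [← hE'l y, hy]
    have h5 : ∃ y'', E y'' = fun l' => x l' - x l * (a i l' : ℤ) := by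
      refine h.sat n _ hn ⟨fun j => y (some j), ?_⟩
      funext l'
      have h6 := congrFun hy l'
      rw [hE', Pi.add_apply, h4] at h6
      have h7 : E (fun j => y (some j)) l' = n * x l' - n * x l * (a i l' : ℤ) := by
        linarith
      rw [h7]
      ring
    obtain ⟨y'', hy''⟩ := h5
    refine ⟨fun j => j.elim (x l) y'', ?_⟩
    rw [hE']
    have h8 : (fun j : J => (fun j : Option J => j.elim (x l) y'') (some j)) = y'' := rfl
    rw [h8, hy'']
    funext l'
    simp
  · intro i' hi'
    rw [hE']
    by_cases hii : i' = i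
    · subst hii
      have h9 : (fun j : J => (if i' = i' then (if (some j) = none then (1 : ℤ) else 0)
          else (some j).elim 0 (m i'))) = 0 := by
        funext j
        simp
      rw [h9, map_zero]
      funext l'
      simp
    · have h9 : (fun j : J => (if i' = i then (if (some j) = none then (1 : ℤ) else 0)
          else (some j).elim 0 (m i'))) = m i' := by
        funext j
        simp [hii]
      rw [h9, h.val i' (Finset.mem_erase.2 ⟨hii, hi'⟩)]
      funext l'
      simp [hii]
  · rw [Fintype.card_option, h.card, hrk]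

end Pool.Newt2
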