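import Pool.Agent.H39.Newt2.Stmts

/-!
# Project NEWTON2: rational span of lattice coordinates (used by LUN and LAP)
-/

set_option autoImplicit false
set_option linter.unusedSectionVars false

namespace Pool.Newt2.LCR

open Pool.Newt

variable {σ I J : Type} [Fintype σ] [Fintype I] [Fintype J]

/-- rational vectors -/
def qv (x : σ → ℤ) : σ → ℚ := fun l => (x l : ℚ)

theorem qv_add (x y : σ → ℤ) : qv (x + y) = qv x + qv y := by
  funext l
  simp [qv]

theorem qv_smul (n : ℤ) (x : σ → ℤ) : qv (n • x) = (n : ℚ) • qv x := by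
  funext l
  simp [qv]

theorem qv_inj {x y : σ → ℤ} (h : qv x = qv y) : x = y := by
  funext l
  have := congrFun h l
  simpa [qv] using this

/-- the cast as a homomorphism -/
def qh : (σ → ℤ) →+ (σ → ℚ) where
  toFun := qv
  map_zero' := by
    funext l
    simp [qv]
  map_add' := qv_add

/-- span of the exponents -/
def sp (a : I → σ → ℕ) (τ : Finset I) : Submodule ℚ (σ → ℚ) :=
  Submodule.span ℚ (Set.range fun (i : τ) (l : σ) => (a i l : ℚ))

theorem rk_eq (a : I → σ → ℕ) (τ : Finset I) : rk a τ = Module.finrank ℚ (sp a τ) := rfl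

theorem mem_sp (a : I → σ → ℕ) (τ : Finset I) (i : I) (hi : i ∈ τ) :
    (fun l => (a i l : ℚ)) ∈ sp a τ := Submodule.subset_span ⟨⟨i, hi⟩, rfl⟩

open Classical in
theorem decomp (E : (J → ℤ) →+ (σ → ℤ)) (y : J → ℤ) :
    qv (E y) = ∑ j, (y j : ℚ) • qv (E (Pi.single j 1)) := by
  have h : E y = ∑ j, y j • E (Pi.single j 1) := by
    conv_lhs => rw [← Finset.univ_sum_single y]
    rw [map_sum]
    refine Finset.sum_congr rfl fun j _ => ?_
    rw [← map_zsmul]
    congr 1
    funext j'
    by_cases hj : j' = j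
    · subst hj
      simp
    · simp [Pi.single_apply, hj]
  rw [h]
  have h2 : qv (∑ j, y j • E (Pi.single j 1)) = qh (∑ j, y j • E (Pi.single j 1)) := rfl
  rw [h2, map_sum]
  refine Finset.sum_congr rfl fun j _ => ?_
  show qv (y j • E (Pi.single j 1)) = _
  rw [qv_smul]

open Classical in
theorem span_eq (a : I → σ → ℕ) (τ : Finset I) (E : (J → ℤ) →+ (σ → ℤ)) (m : I → J → ℤ)
    (h : Adp a τ E m) :
    sp a τ = Submodule.span ℚ (Set.range fun j : J => qv (E (Pi.single j 1))) := by
  have hli : LinearIndependent ℚ (fun j : J => qv (E (Pi.single j 1))) := by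
    rw [← LinearIndependent.iff_fractionRing ℤ ℚ, Fintype.linearIndependent_iff]
    intro g hg
    have h1 : qv (E g) = 0 := by
      rw [decomp E g, ← hg]
      refine Finset.sum_congr rfl fun j _ => ?_
      rw [Int.cast_smul_eq_zsmul]
    have h2 : E g = E 0 := by
      refine qv_inj ?_
      rw [h1, map_zero]
      funext l
      simp [qv]
    have h3 := h.inj h2
    intro j
    rw [h3]
    rfl
  have hle : sp a τ ≤ Submodule.span ℚ (Set.range fun j : J => qv (E (Pi.single j 1))) := by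
    refine Submodule.span_le.2 ?_
    rintro _ ⟨⟨i, hi⟩, rfl⟩
    have h1 : (fun l => (a i l : ℚ)) = qv (E (m i)) := by
      rw [h.val i hi]
      funext l
      simp [qv]
    show (fun l => (a i l : ℚ)) ∈ _
    rw [h1, decomp]
    exact Submodule.sum_mem _ fun j _ => Submodule.smul_mem _ _ (Submodule.subset_span ⟨j, rfl⟩)
  refine Submodule.eq_of_le_of_finrank_eq hle ?_
  rw [finrank_span_eq_card hli, h.card, rk_eq]

theorem mem_span (a : I → σ → ℕ) (τ : Finset I) (E : (J → ℤ) →+ (σ → ℤ)) (m : I → J → ℤ)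
    (h : Adp a τ E m) (y : J → ℤ) : qv (E y) ∈ sp a τ := by
  classical
  rw [span_eq a τ E m h, decomp]
  exact Submodule.sum_mem _ fun j _ => Submodule.smul_mem _ _ (Submodule.subset_span ⟨j, rfl⟩)

/-- an integral vector in the rational span of the exponents has a multiple in the lattice -/
theorem multiple (a : I → σ → ℕ) (τ : Finset I) (x : σ → ℤ) (hx : qv x ∈ sp a τ) :
    ∃ (n : ℕ) (c : I → ℤ), n ≠ 0 ∧ (fun l => (n : ℤ) * x l) =
      fun l => ∑ i ∈ τ, c i * (a i l : ℤ) := by
  classical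
  obtain ⟨q, hq⟩ := (Submodule.mem_span_range_iff_exists_fun ℚ).1 hx
  set n : ℕ := ∏ i : τ, (q i).den with hn
  have hn0 : n ≠ 0 := Finset.prod_ne_zero_iff.2 fun i _ => (q i).den_nz
  have hint : ∀ i : τ, ∃ z : ℤ, (n : ℚ) * q i = z := by
    intro i
    refine ⟨(∏ i' ∈ Finset.univ.erase i, ((q i').den : ℤ)) * (q i).num, ?_⟩
    rw [hn, ← Finset.mul_prod_erase Finset.univ (fun i : τ => (q i).den) (Finset.mem_univ i)]
    push_cast
    have h1 : ((q i).den : ℚ) * q i = (q i).num := Rat.den_mul_eq_num (q i)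
    calc ((q i).den : ℚ) * (∏ i' ∈ Finset.univ.erase i, ((q i').den : ℚ)) * q i =
        (∏ i' ∈ Finset.univ.erase i, ((q i').den : ℚ)) * (((q i).den : ℚ) * q i) := by ring
      _ = _ := by rw [h1]
  choose z hz using hint
  refine ⟨n, fun i => if hi : i ∈ τ then z ⟨i, hi⟩ else 0, hn0, ?_⟩
  funext l
  have h2 := congrFun hq l
  have h3 : ((n : ℤ) * x l : ℚ) = ∑ i : τ, (z i : ℚ) * (a i l : ℚ) := by
    have h4 : (x l : ℚ) = ∑ i : τ, q i * (a i l : ℚ) := by
      have : qv x l = (x l : ℚ) := rfl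
      rw [← this, ← h2]
      simp [Finset.sum_apply]
    rw [h4, Finset.mul_sum]
    refine Finset.sum_congr rfl fun i _ => ?_
    rw [← mul_assoc, ← hz i]
    push_cast
    ring
  have h5 : ((n : ℤ) * x l : ℤ) = ∑ i : τ, z i * (a i l : ℤ) := by
    exact_mod_cast h3
  rw [h5, ← Finset.sum_coe_sort τ]
  refine Finset.sum_congr rfl fun i _ => ?_
  simp only [dif_pos i.2]

/-- an integral vector in the rational span lies in the range -/
theorem in_range (a : I → σ → ℕ) (τ : Finset I) (E : (J → ℤ) →+ (σ → ℤ)) (m : I → J → ℤ)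
    (h : Adp a τ E m) (x : σ → ℤ) (hx : qv x ∈ sp a τ) : ∃ y, E y = x := by
  obtain ⟨n, c, hn, hc⟩ := multiple a τ x hx
  refine h.sat n x hn ⟨∑ i ∈ τ, c i • m i, ?_⟩
  rw [hc, map_sum]
  funext l
  rw [Finset.sum_apply]
  refine Finset.sum_congr rfl fun i hi => ?_
  rw [map_zsmul, h.val i hi]
  simp

end Pool.Newt2.LCR
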