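import Pool.Agent.H33.Newt2.LCR

/-!
# Project NEWTON2, module LUN: uniqueness of the lattice coordinates
-/

set_option autoImplicit false

namespace Pool.Newt2

open Pool.Newt

theorem sLun : SLun := by
  intro σ I J J' _ _ _ _ a τ E m E' m' h h'
  have h1 : ∀ y', ∃ y, E y = E' y' := fun y' =>
    LCR.in_range a τ E m h (E' y') (LCR.mem_span a τ E' m' h' y')
  have h2 : ∀ y, ∃ y', E' y' = E y := fun y =>
    LCR.in_range a τ E' m' h' (E y) (LCR.mem_span a τ E m h y)
  choose f hf using h1
  choose g hg using h2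
  let e : (J' → ℤ) ≃+ (J → ℤ) :=
    { toFun := f
      invFun := g
      left_inv := fun y' => h'.inj (by rw [hg, hf])
      right_inv := fun y => h.inj (by rw [hf, hg])
      map_add' := fun x y => h.inj (by rw [hf, map_add, map_add, hf, hf]) }
  refine ⟨e, fun i hi => ?_⟩
  refine h.inj ?_
  show E (f (m' i)) = E (m i)
  rw [hf, h'.val i hi, h.val i hi]

end Pool.Newt2
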