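import Pool.Agent.H2.Newt2.RAT

/-! # Project NEWTON2: module SLB -/

set_option autoImplicit false

namespace Pool.Newt2

open MvPolynomial Pool.Agent.H39.MonoR Pool.Agent.H75.Mono Pool.Newt RATx

namespace SLB33

variable {σ I : Type} [Fintype σ] [Fintype I]

/-- the claim -/
def ClY (a : I → σ → ℕ) (Y : Finset I) (l : I → σ) (Sl : Finset (Co σ I)) (c : ℕ) : Prop :=
  ∃ (W : Multiset (σ → ℕ)) (N0 : ℕ),
    (∀ w ∈ W, Rigid a w ∧ 0 < Nw a w ∧
      (∀ ξ ∈ Sl, ξ ≠ none → lam a (fun l => (w l : ℤ)) (Nw a w) ξ = 0) ∧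
      ∀ i ∈ Y, w (l i) = 0 ∨ ∃ i' ∈ face a w, i' ≠ i ∧ a i' (l i) ≠ 0) ∧
    ∀ (X : ℝ) (φ : Co σ I → ℤ → ℝ), 0 < X → X < 1 → (∀ ξ, Thr c (φ ξ)) →
      (∀ ξ ∈ Sl, Slb c (φ ξ)) → (∀ v, v ≤ 0 → φ none v = 0) →
      (∀ i ∈ Y, ∃ γ : ℤ → ℝ, Thr c γ ∧ (some (Sum.inr i) ∈ Sl → Slb c γ) ∧
        φ (some (Sum.inr i)) = fun v => γ (v - 1) - X * γ v) →
      ∀ N, N0 ≤ N → PowerSeries.coeff N (dW a X W * Ser a X φ) = 0

theorem stepY (hTem : STem) [Nonempty I] (a : I → σ → ℕ) (Y : Finset I) (l : I → σ) (i : I)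
    (hil : a i (l i) = 1) (hi : i ∉ Y) (Sl : Finset (Co σ I)) (c : ℕ)
    (IH : ∀ (Sl : Finset (Co σ I)) (c : ℕ), ClY a Y l Sl c) :
    ∃ (W : Multiset (σ → ℕ)) (N0 : ℕ),
    (∀ w ∈ W, Rigid a w ∧ 0 < Nw a w ∧
      (∀ ξ ∈ Sl, ξ ≠ none → lam a (fun l => (w l : ℤ)) (Nw a w) ξ = 0) ∧
      (∀ i ∈ Y, w (l i) = 0 ∨ ∃ i' ∈ face a w, i' ≠ i ∧ a i' (l i) ≠ 0) ∧
      (w (l i) = 0 ∨ ∃ i' ∈ face a w, i' ≠ i ∧ a i' (l i) ≠ 0)) ∧
    ∀ (X : ℝ) (φ : Co σ I → ℤ → ℝ), 0 < X → X < 1 → (∀ ξ, Thr c (φ ξ)) →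
      (∀ ξ ∈ Sl, Slb c (φ ξ)) → (∀ v, v ≤ 0 → φ none v = 0) →
      (∀ i ∈ Y, ∃ γ : ℤ → ℝ, Thr c γ ∧ (some (Sum.inr i) ∈ Sl → Slb c γ) ∧
        φ (some (Sum.inr i)) = fun v => γ (v - 1) - X * γ v) →
      (∃ γ : ℤ → ℝ, Thr c γ ∧ (some (Sum.inr i) ∈ Sl → Slb c γ) ∧
        φ (some (Sum.inr i)) = fun v => γ (v - 1) - X * γ v) →
      ∀ N, N0 ≤ N → PowerSeries.coeff N (dW a X W * Ser a X φ) = 0 := by
  classical
  set s : Co σ I → ℤ := fun ξ => lam a (Pi.single (l i) 1) 0 ξ with hs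
  set c' : ℕ := ∑ ξ, (s ξ).natAbs with hc'
  have hc : ∀ ξ, (s ξ).natAbs ≤ c' := fun ξ =>
    Finset.single_le_sum (f := fun ξ => (s ξ).natAbs)
      (fun _ _ => Nat.zero_le _) (Finset.mem_univ ξ)
  have hsn : s none = 0 := rfl
  have hsl : ∀ l', s (some (Sum.inl l')) ≠ 0 → l' = l i := by
    intro l' h
    by_contra hne
    refine h ?_
    show (Pi.single (l i) 1 : σ → ℤ) l' = 0
    exact Pi.single_eq_of_ne hne 1
  have hsr : ∀ k, s (some (Sum.inr k)) = (a k (l i) : ℤ) := by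
    intro k
    show (∑ l', (Pi.single (l i) 1 : σ → ℤ) l' * (a k l' : ℤ)) - 0 = (a k (l i) : ℤ)
    rw [Finset.sum_eq_single (l i), Pi.single_eq_same, one_mul, sub_zero]
    · intro b _ hb
      rw [Pi.single_eq_of_ne hb, zero_mul]
    · intro h
      exact absurd (Finset.mem_univ _) h
  have hex : ∀ ξ : Co σ I, ∃ (W : Multiset (σ → ℕ)) (N0 : ℕ),
      (∀ w ∈ W, Rigid a w ∧ 0 < Nw a w ∧
        (∀ ξ ∈ Sl, ξ ≠ none → lam a (fun l => (w l : ℤ)) (Nw a w) ξ = 0) ∧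
        (∀ i ∈ Y, w (l i) = 0 ∨ ∃ i' ∈ face a w, i' ≠ i ∧ a i' (l i) ≠ 0) ∧
        (w (l i) = 0 ∨ ∃ i' ∈ face a w, i' ≠ i ∧ a i' (l i) ≠ 0)) ∧
      (s ξ ≠ 0 → ξ ≠ some (Sum.inr i) →
        ∀ (X : ℝ) (φ : Co σ I → ℤ → ℝ), 0 < X → X < 1 → (∀ ξ, Thr (c + c' + 1) (φ ξ)) →
        (∀ ξ' ∈ insert ξ Sl, Slb (c + c' + 1) (φ ξ')) → (∀ v, v ≤ 0 → φ none v = 0) →
        (∀ i ∈ Y, ∃ γ : ℤ → ℝ, Thr (c + c' + 1) γ ∧
          (some (Sum.inr i) ∈ insert ξ Sl → Slb (c + c' + 1) γ) ∧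
          φ (some (Sum.inr i)) = fun v => γ (v - 1) - X * γ v) →
        ∀ N, N0 ≤ N → PowerSeries.coeff N (dW a X W * Ser a X φ) = 0) := by
    intro ξ
    by_cases hξ : s ξ ≠ 0 ∧ ξ ≠ some (Sum.inr i)
    · obtain ⟨W, N0, h1, h2⟩ := IH (insert ξ Sl) (c + c' + 1)
      refine ⟨W, N0, fun w hw => ?_, fun _ _ => h2⟩
      obtain ⟨q1, q2, q3, q4⟩ := h1 w hw
      refine ⟨q1, q2, fun ξ' hξ' hn => q3 ξ' (Finset.mem_insert_of_mem hξ') hn, q4, ?_⟩
      rcases ξ with _ | l' | k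
      · exact absurd hsn hξ.1
      · have h3 := q3 _ (Finset.mem_insert_self _ _) (by simp)
        have h4 := hsl l' hξ.1
        subst h4
        left
        have h5 : (w (l i) : ℤ) = 0 := h3
        exact_mod_cast h5
      · have h3 := q3 _ (Finset.mem_insert_self _ _) (by simp)
        right
        refine ⟨k, (lam_face a w k).1 h3, ?_, ?_⟩
        · rintro rfl
          exact hξ.2 rfl
        · intro h0
          refine hξ.1 ?_
          rw [hsr, h0]
          rfl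
    · exact ⟨0, 0, fun w hw => absurd hw (Multiset.notMem_zero w), fun h h' =>
        absurd ⟨h, h'⟩ hξ⟩
  choose W N0 hW hV using hex
  refine ⟨∑ ξ, W ξ, ∑ ξ, N0 ξ + ((∑ ξ, W ξ).map (Nw a)).sum, ?_, ?_⟩
  · intro w hw
    obtain ⟨ξ, _, hξ⟩ := Multiset.mem_sum.1 hw
    exact hW ξ w hξ
  · intro X φ hX0 hX1 hthr hslb hnone hY hYi
    obtain ⟨γ, hγ1, hγ2, hγ3⟩ := hYi
    obtain ⟨Φ, hΦ, hΦ'⟩ := hTem σ I a X hX0 hX1 i (l i) hil c φ γ hthr hγ1 hγ3
    have hΦ2 : Ser a X φ = ∑ ξ ∈ Finset.univ.erase (some (Sum.inr i)), Ser a X (Φ ξ) := by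
      rw [hΦ]
    rw [hΦ2, Finset.mul_sum]
    refine Vn.sum _ fun ξ hξe => ?_
    have hξi : ξ ≠ some (Sum.inr i) := (Finset.mem_erase.1 hξe).1
    obtain ⟨p1, p2, p3⟩ := hΦ' ξ hξi
    by_cases hξ0 : s ξ = 0
    · rw [ser_zero a X (Φ ξ) ξ, mul_zero]
      · exact Vn.zero _
      · intro v
        rw [p1]
        show φ ξ v - φ ξ (v - s ξ) = 0
        rw [hξ0, sub_zero, sub_self]
    · have h1 : Vn (N0 ξ) (dW a X (W ξ) * Ser a X (Φ ξ)) := by
        refine hV ξ hξ0 hξi X (Φ ξ) hX0 hX1 ?_ ?_ ?_ ?_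
        · intro ξ'
          by_cases he : ξ' = some (Sum.inr i)
          · rw [he, p2]
            exact (hγ1.shift (s := 1) (c' := 1) (by simp)).mono (by omega)
          · exact ((hthr ξ').var (hc ξ') (p3 ξ' he)).mono (by omega)
        · intro ξ' hξ'
          by_cases he : ξ' = some (Sum.inr i)
          · have h2 : ξ' ∈ Sl := by
              rcases Finset.mem_insert.1 hξ' with h | h
              · exact absurd (h.symm.trans he) hξi
              · exact h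
            rw [he] at h2
            rw [he, p2]
            exact ((hγ2 h2).shift (s := 1) (c' := 1) (by simp)).mono (by omega)
          · rcases Finset.mem_insert.1 hξ' with h | h
            · subst h
              rw [p1]
              exact ((hthr ξ').diff (hc ξ')).mono (by omega)
            · exact ((hslb ξ' h).var (hc ξ') (p3 ξ' he)).mono (by omega)
        · intro v hv
          have h2 := p3 none (by simp)
          have h3 : φ none v = 0 := hnone v hv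
          have h4 : φ none (v - s none) = 0 := hnone _ (by rw [hsn]; omega)
          rcases h2 with h | h | h
          · rw [h]; exact h3
          · rw [h]; exact h4
          · rw [h]
            show φ none v - φ none (v - s none) = 0
            rw [h3, h4, sub_zero]
        · intro j hj
          obtain ⟨γj, g1, g2, g3⟩ := hY j hj
          have hji : some (Sum.inr j) ≠ (some (Sum.inr i) : Co σ I) := by
            intro h
            have h5 : j = i := by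
              have := Option.some.inj h
              exact Sum.inr.inj this
            exact hi (h5 ▸ hj)
          by_cases hjξ : some (Sum.inr j) = ξ
          · refine ⟨fun v => γj v - γj (v - s ξ), ?_, fun _ => ?_, ?_⟩
            · exact ((g1.diff (hc ξ)).thr).mono (by omega)
            · exact (g1.diff (hc ξ)).mono (by omega)
            · rw [hjξ, p1]
              rw [hjξ] at g3
              exact num_diff g3
          · obtain ⟨γ', r1, r2, -⟩ := Var.num g3 (p3 _ hji)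
            refine ⟨γ', (g1.var (hc _) r1).mono (by omega), fun h => ?_, r2⟩
            have h6 : some (Sum.inr j) ∈ Sl := by
              rcases Finset.mem_insert.1 h with h | h
              · exact absurd h hjξ
              · exact h
            exact ((g2 h6).var (hc _) r1).mono (by omega)
      obtain ⟨U, hU⟩ : ∃ U, ∑ ξ, W ξ = W ξ + U :=
        Multiset.le_iff_exists_add.1
          (Finset.single_le_sum (f := W) (fun _ _ => Multiset.zero_le _) (Finset.mem_univ ξ))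
      have h2 : dW a X (∑ ξ, W ξ) * Ser a X (Φ ξ) =
          dW a X U * (dW a X (W ξ) * Ser a X (Φ ξ)) := by
        rw [hU, dW_add]
        ring
      rw [h2]
      refine (h1.dw U).mono ?_
      rw [hU, Multiset.map_add, Multiset.sum_add]
      have := Finset.single_le_sum (f := N0) (fun _ _ => Nat.zero_le _) (Finset.mem_univ ξ)
      omega

end SLB33

open SLB33 in
/-- SLB -/
theorem sSlb (hTem : STem) (hRat : SRat) : SSlb := by
  classical
  intro σ I _ _ _ a Y l hY Sl c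
  have main : ∀ Y : Finset I, (∀ i ∈ Y, a i (l i) = 1) →
      ∀ (Sl : Finset (Co σ I)) (c : ℕ), ClY a Y l Sl c := by
    intro Y
    induction Y using Finset.induction_on with
    | empty =>
      intro _ Sl c
      obtain ⟨W, N0, h1, h2⟩ := hRat σ I a Sl c
      refine ⟨W, N0, fun w hw => ?_, fun X φ q1 q2 q3 q4 q5 _ => h2 X φ q1 q2 q3 q4 q5⟩
      obtain ⟨p1, p2, p3⟩ := h1 w hw
      exact ⟨p1, p2, p3, fun i hi => absurd hi (Finset.notMem_empty i)⟩
    | insert i Y hi ih =>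
      intro hY Sl c
      obtain ⟨W, N0, h1, h2⟩ := stepY hTem a Y l i (hY i (Finset.mem_insert_self _ _)) hi Sl c
        (ih fun j hj => hY j (Finset.mem_insert_of_mem hj))
      refine ⟨W, N0, fun w hw => ?_, fun X φ q1 q2 q3 q4 q5 q6 => h2 X φ q1 q2 q3 q4 q5
        (fun j hj => q6 j (Finset.mem_insert_of_mem hj)) (q6 i (Finset.mem_insert_self _ _))⟩
      obtain ⟨p1, p2, p3, p4, p5⟩ := h1 w hw
      refine ⟨p1, p2, p3, fun j hj => ?_⟩
      rcases Finset.mem_insert.1 hj with rfl | h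
      · exact p5
      · exact p4 j h
  exact main Y hY Sl c

end Pool.Newt2
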